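import Pool.Agent.Q169.SP.Sphere
import Pool.Agent.Q169.RC.AtT

/-!
# Vanishing of the Euler characteristic and of the `ℓ²`-homology of flag spheres with coloured exceptional vertices

Let the flag complex `L` of the graph `G` be a homology sphere of dimension `2 m - 1`. The right-angled Coxeter group
`W G` acts on its Davis complex, a contractible homology manifold of dimension `2 m`; the quotients by torsion-free
subgroups of finite index are closed aspherical manifolds whose Euler characteristic is a multiple of `χ(W G)`. Under a
local colouring criterion we prove that `χ(W G) = 0` if and only if the `ℓ²`-homology of `W G` vanishes.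
-/

set_option autoImplicit false

namespace Pool.Agent.Results.MP_394d50_gt.ColouredFlatIff

open Finset Pool.Agent.W907.SG Pool.Agent.W907.SM Pool.Agent.TH652.Above Pool.Agent.Q169.RC
open Pool.Agent.Q169.SP (flagComplex IsHomologySphere Colours mem_flag)

/-- Let the flag complex of `G` be a homology sphere of dimension `2 m - 1` over the reals and modulo `2`.
Assume that there is a set `B` of vertices, coloured with `m + 1` colours (adjacent vertices of `B` have different
colours), such that all simplices with a vertex outside `B` are good. Then the `ℓ²`-homology of the Davis complex of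
`W G` vanishes in all degrees if and only if the Euler characteristic of `W G` is zero. -/
theorem result (m N : ℕ) (G : SimpleGraph (Fin N)) (hR : HSph (2 * m) G)
    (h2 : IsHomologySphere (flagComplex G) (2 * m)) (B : Set (Fin N)) (κ : Fin N → Fin (m + 1))
    (hκ : Colours G B κ)
    (hB : ∀ v, v ∉ B → ∀ T : Finset (Fin N), v ∈ T → G.IsClique (T : Set (Fin N)) → Good (2 * m) G T) :
    (∀ i : ℕ, L2Van G i) ↔ chiW G = 0 := by
  classical
  have hH : Pool.Agent.Y131.KS.HSph (flagComplex G) (2 * m) := ⟨h2.1, h2.2.1, h2.2.2.1, h2.2.2.2⟩
  have hQ := Q_of_good (n := 2 * m) (k := m) (Or.inl rfl) G (flagComplex G) (mem_flag G) hH hR B κ hκ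
    (fun v hv => ⟨hB v hv, fun ho => absurd ho (Nat.not_odd_iff_even.2 (even_two_mul m))⟩)
  exact l2eul (Fin N) G m fun i hi =>
    singer_of_above hR (fun j hj => (lv_univ G j).1 (hQ.2 Set.univ j hj) _ _) i (by omega)

end Pool.Agent.Results.MP_394d50_gt.ColouredFlatIff
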