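import Pool.Agent.Q169.SP.Sphere
import Pool.Agent.Q169.RC.AtT

/-!
# Full subcomplexes of flag spheres of Euler characteristic zero

Let the flag complex `L` of the graph `G` be a homology sphere of dimension `2 m - 1` with good simplices. We prove that
`χ(W G) = 0` if and only if the `ℓ²`-homology of the right-angled Coxeter group of every full subcomplex of `L` vanishes
in all degrees `i ≥ m`, and that then certain joins are not full subcomplexes of `L`.
-/

set_option autoImplicit false

namespace Pool.Agent.Results.MP_394d50_gt.FlatSubcomplexes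

open Finset Pool.Agent.W907.SG Pool.Agent.W907.SM Pool.Agent.TH652.Above Pool.Agent.Q169.RC
open Pool.Agent.Q169.SP (flagComplex IsHomologySphere mem_flag)

/-- Let the flag complex of `G` be a homology sphere of dimension `2 m - 1` over the reals and modulo `2`, and assume
that all simplices are good. Then the following are equivalent: the Euler characteristic of `W G` is zero;
the `ℓ²`-homology of `W G` vanishes in the degree `m`; for every full subcomplex `A` the `ℓ²`-homology of the
right-angled Coxeter group of `A` vanishes in all degrees `i ≥ m`. If they hold and the full subcomplex on `A` is the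
join of `m` complexes `A_j = A ∩ p⁻¹(j)` which are not simplices, then `∏_j (-χ(A_j)) ≤ 0`; in particular the join of
`m` sets of at least three points is not a full subcomplex. -/
theorem result (m N : ℕ) (G : SimpleGraph (Fin N)) (hR : HSph (2 * m) G)
    (h2 : IsHomologySphere (flagComplex G) (2 * m))
    (hg : ∀ T : Finset (Fin N), G.IsClique (T : Set (Fin N)) → Good (2 * m) G T) :
    (chiW G = 0 ↔ L2Van G m) ∧
    (chiW G = 0 ↔ ∀ (A : Set (Fin N)) [Fintype A] (i : ℕ), m ≤ i → L2Van (G.induce A) i) ∧
    (chiW G = 0 → ∀ (A : Set (Fin N)) (p : Fin N → Fin m), (∀ u ∈ A, ∀ v ∈ A, p u ≠ p v → G.Adj u v) →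
      (∀ j, ∃ s ∈ A, ∃ t ∈ A, p s = j ∧ p t = j ∧ s ≠ t ∧ ¬ G.Adj s t) →
      ∏ j : Fin m, (- chiS G (A ∩ {v | p v = j})) ≤ 0) ∧
    (chiW G = 0 → ¬ ∃ x : Fin m → Fin 3 → Fin N, (∀ i j a b, i ≠ j → G.Adj (x i a) (x j b)) ∧
      ∀ i a b, a ≠ b → x i a ≠ x i b ∧ ¬ G.Adj (x i a) (x i b)) := by
  classical
  have hH : Pool.Agent.Y131.KS.HSph (flagComplex G) (2 * m) := ⟨h2.1, h2.2.1, h2.2.2.1, h2.2.2.2⟩
  have hP := P_of_good G (flagComplex G) (mem_flag G) hH hR hg
  have hmid : ∀ i, i ≠ m → L2Van G i := fun i hi =>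
    singer_of_above hR (fun j hj => lv_of_P hP j hj _ _) i (by omega)
  have hiff := l2eul (Fin N) G m hmid
  have h3 : chiW G = 0 → ∀ (A : Set (Fin N)) [Fintype A] (i : ℕ), m ≤ i → L2Van (G.induce A) i :=
    fun h A _ i hi => flat G hP hR h A i hi _ _
  have h4 : L2Van G m → chiW G = 0 := by
    intro h
    refine hiff.1 fun i => ?_
    by_cases hi : i = m
    · rw [hi]; exact h
    · exact hmid i hi
  have h5 : chiW G = 0 → ∀ (A : Set (Fin N)) (p : Fin N → Fin m), (∀ u ∈ A, ∀ v ∈ A, p u ≠ p v → G.Adj u v) →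
      (∀ j, ∃ s ∈ A, ∃ t ∈ A, p s = j ∧ p t = j ∧ s ≠ t ∧ ¬ G.Adj s t) →
      ∏ j : Fin m, (- chiS G (A ∩ {v | p v = j})) ≤ 0 := by
    intro h A p hadj hne
    have h6 := chi_join_bound G hP hR A p hadj hne
    rw [h, mul_zero] at h6
    exact h6
  refine ⟨⟨fun h => hiff.2 h m, h4⟩, ⟨h3, fun h => h4 ?_⟩, h5, ?_⟩
  · have h6 := h Set.univ m (le_refl _)
    exact ((lv_univ G m).1 (Pool.Agent.Q169.RC.lv_of h6)) _ _
  · rintro h ⟨x, hx1, hx2⟩
    have hinj : ∀ i j a b, x i a = x j b → i = j ∧ a = b := by
      intro i j a b hab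
      have hij : i = j := by
        by_contra hne
        exact (hx1 i j a b hne).ne hab
      subst hij
      refine ⟨rfl, ?_⟩
      by_contra hne
      exact (hx2 i a b hne).1 hab
    rcases Nat.eq_zero_or_pos m with hm | hm
    · subst hm
      have h6 := h5 h ∅ (fun v => Fin.elim0 (by
        exfalso
        have h7 := hH.card_le {v} ((mem_flag G _).2 (by simp))
        simp at h7)) (fun u hu => absurd hu (Set.notMem_empty u)) (fun j => Fin.elim0 j)
      simp at h6
      linarith
    · have hne : Nonempty (Fin m) := ⟨⟨0, hm⟩⟩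
      obtain ⟨p, hp⟩ : ∃ p : Fin N → Fin m, ∀ i a, p (x i a) = i := by
        refine ⟨fun v => if h : ∃ i a, x i a = v then h.choose else ⟨0, hm⟩, fun i a => ?_⟩
        have h6 : ∃ j b, x j b = x i a := ⟨i, a, rfl⟩
        show (if h : ∃ j b, x j b = x i a then h.choose else ⟨0, hm⟩) = i
        rw [dif_pos h6]
        obtain ⟨b, hb⟩ := h6.choose_spec
        exact (hinj _ _ _ _ hb).1
      have h6 := h5 h {v | ∃ i a, x i a = v} p (by
        rintro _ ⟨i, a, rfl⟩ _ ⟨j, b, rfl⟩ hne
        rw [hp, hp] at hne
        exact hx1 i j a b hne) (fun j => ⟨x j 0, ⟨j, 0, rfl⟩, x j 1, ⟨j, 1, rfl⟩, hp j 0, hp j 1,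
          (hx2 j 0 1 (by decide)).1, (hx2 j 0 1 (by decide)).2⟩)
      have h7 : ∀ j : Fin m, - chiS G ({v | ∃ i a, x i a = v} ∩ {v | p v = j}) = 1 / 2 := by
        intro j
        have e1 : ({v | ∃ i a, x i a = v} ∩ {v | p v = j} : Set (Fin N)) =
            insert (x j 0) (insert (x j 1) (insert (x j 2) ∅)) := by
          ext v
          constructor
          · rintro ⟨⟨i, a, rfl⟩, hv⟩
            rw [Set.mem_ofPred_eq, hp] at hv
            subst hv
            fin_cases a
            · exact Or.inl rfl
            · exact Or.inr (Or.inl rfl)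
            · exact Or.inr (Or.inr (Or.inl rfl))
          · rintro (rfl | rfl | rfl | hv)
            · exact ⟨⟨j, 0, rfl⟩, hp j 0⟩
            · exact ⟨⟨j, 1, rfl⟩, hp j 1⟩
            · exact ⟨⟨j, 2, rfl⟩, hp j 2⟩
            · exact absurd hv (Set.notMem_empty v)
        have n01 := hx2 j 0 1 (by decide)
        have n02 := hx2 j 0 2 (by decide)
        have n12 := hx2 j 1 2 (by decide)
        have i2 : (∅ : Set (Fin N)) ∩ G.neighborSet (x j 2) = ∅ := Set.empty_inter _
        have i1 : (insert (x j 2) ∅ : Set (Fin N)) ∩ G.neighborSet (x j 1) = ∅ := by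
          ext v
          simp only [Set.mem_inter_iff, Set.mem_insert_iff, Set.mem_empty_iff_false, or_false, iff_false, not_and]
          rintro rfl hv
          exact n12.2 hv
        have i0 : (insert (x j 1) (insert (x j 2) ∅) : Set (Fin N)) ∩ G.neighborSet (x j 0) = ∅ := by
          ext v
          simp only [Set.mem_inter_iff, Set.mem_insert_iff, Set.mem_empty_iff_false, or_false, iff_false, not_and]
          rintro (rfl | rfl) hv
          · exact n01.2 hv
          · exact n02.2 hv
        rw [e1, chiS_add G _ (x j 0), chiS_add G _ (x j 1), chiS_add G _ (x j 2) (Set.notMem_empty _), i2, i1, i0,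
          chiS_empty]
        · norm_num
        · rintro (h8 | h8)
          · exact n12.1 h8
          · exact h8
        · rintro (h8 | h8 | h8)
          · exact n01.1 h8
          · exact n02.1 h8
          · exact h8
      rw [prod_congr rfl (fun j _ => h7 j), prod_const] at h6
      have h8 : (0 : ℚ) < (1 / 2) ^ (univ : Finset (Fin m)).card := by positivity
      linarith

end Pool.Agent.Results.MP_394d50_gt.FlatSubcomplexes
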