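import Pool.Agent.Q173.PT.Simplicial

/-!
# Vanishing of the `L²`-Betti numbers for Euler characteristic zero, and numbers of generators
-/

set_option autoImplicit false

open Pool.Agent.Q173.PT

namespace Pool.Agent.Results.MP_394d50_gt.RankExponents

universe u

theorem result {V : Type u} (G : BettiData V) (hG : G.IsKnown) :
    G.Vanishing ↔ ∀ K B : ℕ, ∃ m, B ≤ m ∧ K ≤ m ∧ ∃ C : ℝ, ∀ M, G.dim M = 2 * m →
      G.chi M = 0 → ∀ p, G.betti M p ≤ C * (G.rk M : ℝ) ^ (m - K) :=
  hG.vanishing_iff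

end Pool.Agent.Results.MP_394d50_gt.RankExponents
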